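import Mathlib
import Pool.Agent.HpBall2.MainC

set_option autoImplicit false

open MeasureTheory Complex
open scoped ENNReal NNReal

namespace Pool.Agent.H541R3.HpB

open Pool.Agent.HpBall Pool.Agent.HpBall2

/-- The basis theorem together with the boundedness of the coefficient functionals. -/
theorem main_basis2 (n : ℕ) (hn : 1 ≤ n) (p : ℝ) (hp : 0 < p) (hp1 : p ≤ 1) :
    ∃ e : ℕ → E n → ℂ, (∀ k, DifferentiableOn ℂ (e k) (Metric.ball 0 1)) ∧
      (∀ k (r : ℝ), 0 ≤ r → r < 1 →
        ∫⁻ ξ, ENNReal.ofReal (‖e k ((r : ℂ) • ξ)‖ ^ (2 : ℝ)) ∂(sig n) ≤ 1) ∧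
      (∀ j k, Filter.Tendsto (fun r : ℝ => ∫ ξ, e j ((r : ℂ) • ξ) *
        (starRingEnd ℂ) (e k ((r : ℂ) • ξ)) ∂(sig n)) (nhdsWithin (1 : ℝ) (Set.Iio 1))
        (nhds (if j = k then (1 : ℂ) else 0))) ∧
      (∃ D : ℝ≥0∞, D ≠ ⊤ ∧ ∀ k, ∃ c : ℝ≥0∞, c ≠ 0 ∧ ∀ (a : ℕ → ℂ) (G : Finset ℕ), k ∈ G →
        ENNReal.ofReal (‖a k‖ ^ p) * c ≤ D * NF n p (fun z => ∑ j ∈ G, a j * e j z)) ∧
      ∀ f : E n → ℂ, DifferentiableOn ℂ f (Metric.ball 0 1) → NF n p f ≠ ⊤ →
        ∃! a : ℕ → ℂ, ∀ ε : ℝ≥0∞, 0 < ε → ∃ F : Finset ℕ, ∀ G : Finset ℕ, F ⊆ G →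
          NF n p (fun z => f z - ∑ k ∈ G, a k * e k z) < ε := by
  obtain ⟨H, i1, i2, i3, ⟨M⟩⟩ := exists_hmodel n hn
  obtain ⟨Φ, ω, D', hω0, hD', hΦ1, hΦ2⟩ := exists_unitary n hn p hp hp1 M
  have hNH := NF_pfun n hn p hp hp1 M
  obtain ⟨hN0, hNfin, hNcont⟩ := pfun_lsc p hp _ hNH
  obtain ⟨e0⟩ : Nonempty (ℕ ≃ ℕ × Ix) := nonempty_equiv_of_countable
  set S : (ℕ → ℂ) → Finset ℕ → DS := fun a G => ∑ k ∈ G, a k • bv (e0 k) with hS
  set co : DS → ℕ → ℂ := fun w k => (w (e0 k).1 : KS) (e0 k).2 with hco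
  set e : ℕ → E n → ℂ := fun k => M.ev (Φ (bv (e0 k))) with he
  have hevS : ∀ a G z, M.ev (Φ (S a G)) z = ∑ k ∈ G, a k * e k z := by
    intro a G z
    rw [hS]
    simp only [map_sum, map_smul, Finset.sum_apply, Pi.smul_apply, smul_eq_mul, he]
  have hSco : ∀ a G k, co (S a G) k = if k ∈ G then a k else 0 := by
    intro a G k
    simp only [hco, hS]
    rw [sum_apply e0 a G]
    simp
  -- lower bound for the coefficients
  have hc0 : ∀ k, ω ^ (e0 k).1 * NK p (Pi.single (e0 k).2 (1 : ℂ)) ≠ 0 := by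
    intro k
    exact mul_ne_zero (pow_ne_zero _ hω0.ne') (NK_single p hp _).ne'
  have hcoef : ∀ (w : DS) k, ENNReal.ofReal (‖co w k‖ ^ p) *
      (ω ^ (e0 k).1 * NK p (Pi.single (e0 k).2 (1 : ℂ))) ≤ D' * NF n p (M.ev (Φ w)) := by
    intro w k
    refine (coef_le p hp hp1 ω w (e0 k)).trans ?_
    have := hΦ2 (Φ w)
    rwa [Φ.symm_apply_apply] at this
  -- restriction is bounded
  have hrestr : ∀ (w : DS) (G : Finset ℕ), NF n p (M.ev (Φ (S (co w) G))) ≤
      D' * (D' * NF n p (M.ev (Φ w))) := by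
    intro w G
    refine (hΦ1 _).trans ?_
    gcongr
    calc ND p ω (S (co w) G) ≤ ND p ω w := by
          apply ND_mono p hp
          intro m κ
          have h1 := sum_apply e0 (co w) G m κ
          simp only [hS]
          rw [h1]
          split_ifs
          · simp [hco]
          · simp
      _ ≤ _ := by
          have := hΦ2 (Φ w)
          rwa [Φ.symm_apply_apply] at this
  have hbvn : ∀ k, ‖Φ (bv (e0 k))‖ = 1 := by
    intro k
    rw [Φ.norm_map]
    exact bv_orthonormal.1 _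
  refine ⟨e, fun k => M.hol _, ?_, ?_, ⟨D', hD', ?_⟩, ?_⟩
  · intro k r hr0 hr1
    have := M.two (Φ (bv (e0 k))) r hr0 hr1
    rw [hbvn] at this
    simpa using this
  · intro j k
    have h := M.lim (Φ (bv (e0 k))) (Φ (bv (e0 j)))
    have h1 : (inner ℂ (Φ (bv (e0 k))) (Φ (bv (e0 j))) : ℂ) = if j = k then 1 else 0 := by
      rw [Φ.inner_map_map, orthonormal_iff_ite.1 bv_orthonormal]
      simp only [e0.injective.eq_iff, eq_comm]
    rw [h1] at h
    refine h.congr fun r => ?_
    apply integral_congr_ae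
    refine Filter.Eventually.of_forall fun ξ => ?_
    simp only [he]
    ring
  · intro k
    refine ⟨_, hc0 k, fun a G hk => ?_⟩
    have h6 := hcoef (S a G) k
    rw [hSco, if_pos hk] at h6
    refine h6.trans (le_of_eq ?_)
    congr 2
    funext z
    exact hevS a G z
  · intro f hf hfin
    -- approximating sequence
    have happ : ∀ i : ℕ, ∃ h : H, NF n p (fun z => f z - M.ev h z) ≤ (2⁻¹ : ℝ≥0∞) ^ i := fun i =>
      ev_dense n hn p hp hp1 M f hf hfin _ (ENNReal.pow_pos (by norm_num) i)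
    choose h hh using happ
    set w : ℕ → DS := fun i => Φ.symm (h i) with hw
    have hΦw : ∀ i, Φ (w i) = h i := fun i => Φ.apply_symm_apply _
    have hdiff : ∀ i i', NF n p (M.ev (h i - h i')) ≤ (2⁻¹ : ℝ≥0∞) ^ i + (2⁻¹ : ℝ≥0∞) ^ i' := by
      intro i i'
      have h1 : (M.ev (h i - h i') : E n → ℂ) = fun z => (M.ev (h i) z - f z) + (f z - M.ev (h i') z) := by
        funext z
        rw [map_sub, Pi.sub_apply]; ring
      rw [h1]
      refine (NF_add hn hp hp1 ((M.hol (h i)).sub hf)).trans ?_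
      apply add_le_add _ (hh i')
      exact (NF_sub_comm (M.ev (h i)) f).trans_le (hh i)
    have hcolin : ∀ w w' : DS, ∀ k, co (w - w') k = co w k - co w' k := by
      intro w w' k
      simp [hco]
    -- convergence of the coefficients
    have hlim : ∀ k, ∃ a : ℂ, Filter.Tendsto (fun i => co (w i) k) Filter.atTop (nhds a) := by
      intro k
      apply cauchySeq_tendsto_of_complete
      set c := ω ^ (e0 k).1 * NK p (Pi.single (e0 k).2 (1 : ℂ)) with hc
      have hcne : c ≠ 0 := hc0 k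
      rw [Metric.cauchySeq_iff]
      intro ε hε
      -- choose N with D' * 2 * 2^{-N} < c ε^p
      have h2 : Filter.Tendsto (fun N : ℕ => D' * (2 * (2⁻¹ : ℝ≥0∞) ^ N)) Filter.atTop (nhds 0) := by
        have h3 := ENNReal.tendsto_pow_atTop_nhds_zero_of_lt_one (r := 2⁻¹) (by norm_num)
        have h4 := ENNReal.Tendsto.const_mul (a := 2) h3 (Or.inr (by norm_num))
        have h5 := ENNReal.Tendsto.const_mul (a := D') h4 (Or.inr hD')
        simpa using h5
      have hpos : 0 < ENNReal.ofReal (ε ^ p) * c :=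
        ENNReal.mul_pos (ENNReal.ofReal_pos.2 (Real.rpow_pos_of_pos hε p)).ne' hcne
      obtain ⟨N, hN⟩ := (h2.eventually (gt_mem_nhds hpos)).exists
      refine ⟨N, fun i hi i' hi' => ?_⟩
      rw [dist_eq_norm]
      by_contra hcon
      push Not at hcon
      have h6 := hcoef (w i - w i') k
      rw [hcolin, map_sub Φ, hΦw, hΦw] at h6
      have h7 : ENNReal.ofReal (ε ^ p) * c ≤ D' * (2 * (2⁻¹ : ℝ≥0∞) ^ N) := by
        calc ENNReal.ofReal (ε ^ p) * c ≤ ENNReal.ofReal (‖co (w i) k - co (w i') k‖ ^ p) * c := by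
              gcongr
          _ ≤ _ := h6
          _ ≤ D' * ((2⁻¹ : ℝ≥0∞) ^ i + (2⁻¹ : ℝ≥0∞) ^ i') := by
              gcongr
              exact hdiff i i'
          _ ≤ D' * ((2⁻¹ : ℝ≥0∞) ^ N + (2⁻¹ : ℝ≥0∞) ^ N) := by
              gcongr D' * (?_ + ?_)
              · exact pow_le_pow_right_of_le_one' (by norm_num) hi
              · exact pow_le_pow_right_of_le_one' (by norm_num) hi'
          _ = _ := by rw [two_mul]
      exact absurd hN (not_lt.2 h7)
    choose a ha using hlim
    -- finite sums of the limit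
    have hScont : ∀ G : Finset ℕ, ∀ i, NF n p (M.ev (Φ (S (fun k => co (w i) k - a k) G))) ≤
        D' * (D' * (2 * (2⁻¹ : ℝ≥0∞) ^ i)) := by
      intro G i
      have h1 : Filter.Tendsto (fun i' => NF n p (M.ev (Φ (S (co (w i - w i')) G))))
          Filter.atTop (nhds (NF n p (M.ev (Φ (S (fun k => co (w i) k - a k) G))))) := by
        have h2 : Filter.Tendsto (fun i' => Φ (S (co (w i - w i')) G)) Filter.atTop
            (nhds (Φ (S (fun k => co (w i) k - a k) G))) := by
          apply (Φ.continuous.tendsto _).comp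
          simp only [hS]
          apply tendsto_finsetSum
          intro k _
          apply Filter.Tendsto.smul_const
          simp_rw [hcolin]
          exact tendsto_const_nhds.sub (ha k)
        exact (hNcont.tendsto _).comp h2
      refine le_of_tendsto h1 ?_
      filter_upwards [Filter.eventually_ge_atTop i] with i' hi'
      refine (hrestr (w i - w i') G).trans ?_
      rw [map_sub Φ, hΦw, hΦw]
      gcongr D' * (D' * ?_)
      refine (hdiff i i').trans ?_
      rw [two_mul]
      gcongr _ + ?_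
      exact pow_le_pow_right_of_le_one' (by norm_num) hi'
    have haP : ∀ ε : ℝ≥0∞, 0 < ε → ∃ F : Finset ℕ, ∀ G : Finset ℕ, F ⊆ G →
          NF n p (fun z => f z - ∑ k ∈ G, a k * e k z) < ε := by
      intro ε hε
      have h2 : Filter.Tendsto (fun i : ℕ => (2⁻¹ : ℝ≥0∞) ^ i + D' * (D' * (2 * (2⁻¹ : ℝ≥0∞) ^ i)))
          Filter.atTop (nhds 0) := by
        have h3 := ENNReal.tendsto_pow_atTop_nhds_zero_of_lt_one (r := 2⁻¹) (by norm_num)
        have h4 := ENNReal.Tendsto.const_mul (a := 2) h3 (Or.inr (by norm_num))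
        have h5 := ENNReal.Tendsto.const_mul (a := D') h4 (Or.inr hD')
        have h6 := ENNReal.Tendsto.const_mul (a := D') h5 (Or.inr hD')
        simpa using h3.add h6
      have hε2 : 0 < ε / 2 := ENNReal.half_pos hε.ne'
      obtain ⟨i, hi⟩ := (h2.eventually (gt_mem_nhds hε2)).exists
      have h3 : Filter.Tendsto (fun G : Finset ℕ => NF n p (M.ev (Φ (w i - S (co (w i)) G))))
          Filter.atTop (nhds 0) := by
        have h4 := exists_hilbert e0 (w i)
        have h5 : Filter.Tendsto (fun G : Finset ℕ => Φ (w i - S (co (w i)) G)) Filter.atTop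
            (nhds 0) := by
          have h6 : Filter.Tendsto (fun G : Finset ℕ => w i - S (co (w i)) G) Filter.atTop
              (nhds (w i - w i)) := tendsto_const_nhds.sub h4
          rw [sub_self] at h6
          have h7 := (Φ.continuous.tendsto 0).comp h6
          rwa [map_zero] at h7
        have h8 := (hNcont.tendsto 0).comp h5
        rwa [hN0] at h8
      obtain ⟨F, hF⟩ := Filter.eventually_atTop.1 (h3.eventually (gt_mem_nhds hε2))
      refine ⟨F, fun G hG => ?_⟩
      have h4 := hF G hG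
      have h5 : (fun z => f z - ∑ k ∈ G, a k * e k z) = fun z => (f z - M.ev (h i) z) +
          (M.ev (Φ (S (fun k => co (w i) k - a k) G)) z + M.ev (Φ (w i - S (co (w i)) G)) z) := by
        funext z
        rw [hevS, map_sub Φ, hΦw, map_sub, Pi.sub_apply, hevS]
        simp_rw [sub_mul]
        rw [Finset.sum_sub_distrib]
        ring
      rw [h5]
      calc _ ≤ NF n p (fun z => f z - M.ev (h i) z) + NF n p (fun z =>
            M.ev (Φ (S (fun k => co (w i) k - a k) G)) z + M.ev (Φ (w i - S (co (w i)) G)) z) :=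
            NF_add hn hp hp1 (hf.sub (M.hol _))
        _ ≤ NF n p (fun z => f z - M.ev (h i) z) +
            (NF n p (M.ev (Φ (S (fun k => co (w i) k - a k) G))) +
              NF n p (M.ev (Φ (w i - S (co (w i)) G)))) := by
            gcongr
            exact NF_add hn hp hp1 (M.hol _)
        _ ≤ (2⁻¹ : ℝ≥0∞) ^ i + (D' * (D' * (2 * (2⁻¹ : ℝ≥0∞) ^ i)) +
              NF n p (M.ev (Φ (w i - S (co (w i)) G)))) := by
            gcongr
            · exact hh i
            · exact hScont G i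
        _ = ((2⁻¹ : ℝ≥0∞) ^ i + D' * (D' * (2 * (2⁻¹ : ℝ≥0∞) ^ i))) +
              NF n p (M.ev (Φ (w i - S (co (w i)) G))) := by ring
        _ < ε / 2 + ε / 2 := ENNReal.add_lt_add hi h4
        _ = ε := ENNReal.add_halves ε
    refine ⟨a, haP, ?_⟩
    · intro b hb
      funext k
      by_contra hne
      set c := ω ^ (e0 k).1 * NK p (Pi.single (e0 k).2 (1 : ℂ)) with hc
      have hcne : c ≠ 0 := hc0 k
      have hdpos : 0 < ‖b k - a k‖ := norm_pos_iff.2 (sub_ne_zero.2 hne)
      have hpos : 0 < ENNReal.ofReal (‖b k - a k‖ ^ p) * c :=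
        ENNReal.mul_pos (ENNReal.ofReal_pos.2 (Real.rpow_pos_of_pos hdpos p)).ne' hcne
      have h2 : Filter.Tendsto (fun N : ℕ => D' * (2 * (2⁻¹ : ℝ≥0∞) ^ N)) Filter.atTop (nhds 0) := by
        have h3 := ENNReal.tendsto_pow_atTop_nhds_zero_of_lt_one (r := 2⁻¹) (by norm_num)
        have h4 := ENNReal.Tendsto.const_mul (a := 2) h3 (Or.inr (by norm_num))
        have h5 := ENNReal.Tendsto.const_mul (a := D') h4 (Or.inr hD')
        simpa using h5
      obtain ⟨N, hN⟩ := (h2.eventually (gt_mem_nhds hpos)).exists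
      have hεN : 0 < (2⁻¹ : ℝ≥0∞) ^ N := ENNReal.pow_pos (by norm_num) N
      obtain ⟨F1, hF1⟩ := hb _ hεN
      obtain ⟨F2, hF2⟩ := haP _ hεN
      set G := insert k (F1 ∪ F2) with hG
      have hkG : k ∈ G := Finset.mem_insert_self _ _
      have h3 := hF1 G ((Finset.subset_union_left).trans (Finset.subset_insert _ _))
      have h4 := hF2 G ((Finset.subset_union_right).trans (Finset.subset_insert _ _))
      have h6 := hcoef (S (fun k => b k - a k) G) k
      rw [hSco, if_pos hkG] at h6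
      have h7 : NF n p (M.ev (Φ (S (fun k => b k - a k) G))) ≤ 2 * (2⁻¹ : ℝ≥0∞) ^ N := by
        have h8 : (M.ev (Φ (S (fun k => b k - a k) G)) : E n → ℂ) = fun z =>
            (∑ k ∈ G, b k * e k z - f z) + (f z - ∑ k ∈ G, a k * e k z) := by
          funext z
          rw [hevS]
          simp_rw [sub_mul]
          rw [Finset.sum_sub_distrib]
          ring
        have hd : DifferentiableOn ℂ (fun z => ∑ k ∈ G, b k * e k z) (Metric.ball (0 : E n) 1) := by
          apply DifferentiableOn.fun_sum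
          intro k _
          exact (M.hol _).const_mul _
        rw [h8]
        refine (NF_add hn hp hp1 (hd.sub hf)).trans ?_
        rw [two_mul]
        apply add_le_add _ h4.le
        exact (NF_sub_comm (fun z => ∑ k ∈ G, b k * e k z) f).trans_le h3.le
      have h9 : ENNReal.ofReal (‖b k - a k‖ ^ p) * c ≤ D' * (2 * (2⁻¹ : ℝ≥0∞) ^ N) :=
        h6.trans (by gcongr)
      exact absurd hN (not_lt.2 h9)

end Pool.Agent.H541R3.HpB
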