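import Mathlib
import Pool.Agent.HpBall.Sphere

set_option autoImplicit false

open MeasureTheory Complex
open scoped ENNReal NNReal Pointwise

namespace Pool.Agent.H541R3.HpB

open Pool.Agent.HpBall

variable {n : ℕ}

/-- the radial projection -/
noncomputable def prj (z : E n) : E n := (((‖z‖⁻¹ : ℝ)) : ℂ) • z

lemma prj_smul (R : ℝ) (hR : 0 < R) (z : E n) : prj (R • z) = prj z := by
  unfold prj
  rw [norm_smul, Real.norm_of_nonneg hR.le]
  have h : (R • z : E n) = (R : ℂ) • z := by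
    ext i; simp [Complex.real_smul]
  rw [h, smul_smul]
  congr 1
  push_cast
  rw [mul_inv]
  have : (R : ℂ) ≠ 0 := by exact_mod_cast hR.ne'
  field_simp

/-- the image of Lebesgue measure on the unit ball under the radial projection -/
noncomputable def nu (n : ℕ) : Measure (E n) :=
  ((vol n).restrict (Metric.ball 0 1)).map (fun z => (((‖z‖⁻¹ : ℝ)) : ℂ) • z)

lemma cone_scale (hn : 1 ≤ n) (P : Set (E n)) (hP : ∀ (R : ℝ), 0 < R → ∀ z, R • z ∈ P ↔ z ∈ P)
    (R : ℝ) (hR : 0 < R) :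
    (vol n) (Metric.ball 0 R ∩ P) =
      ENNReal.ofReal (R ^ (Module.finrank ℝ (E n))) * (vol n) (Metric.ball 0 1 ∩ P) := by
  have h : Metric.ball (0 : E n) R ∩ P = R • (Metric.ball (0 : E n) 1 ∩ P) := by
    ext z
    rw [Set.mem_smul_set_iff_inv_smul_mem₀ hR.ne']
    constructor
    · rintro ⟨h1, h2⟩
      refine ⟨?_, (hP _ (inv_pos.2 hR) z).2 h2⟩
      rw [mem_ball_zero_iff] at h1 ⊢
      rw [norm_smul, norm_inv, Real.norm_of_nonneg hR.le, inv_mul_lt_iff₀ hR, mul_one]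
      exact h1
    · rintro ⟨h1, h2⟩
      refine ⟨?_, (hP _ (inv_pos.2 hR) z).1 h2⟩
      rw [mem_ball_zero_iff] at h1 ⊢
      rw [norm_smul, norm_inv, Real.norm_of_nonneg hR.le, inv_mul_lt_iff₀ hR, mul_one] at h1
      exact h1
  rw [h, Measure.addHaar_smul, abs_of_nonneg (by positivity)]

/-- The Gaussian surface measure is a multiple of the surface measure obtained from the ball. -/
theorem sig_eq (hn : 1 ≤ n) : ∃ C : ℝ≥0∞, sig n = C • nu n := by
  have hd : ∀ t : ℝ, 0 < t → ∀ z : E n, t < Real.exp (-‖z‖ ^ 2) ↔ (t < 1 ∧ ‖z‖ < Real.sqrt (-Real.log t)) := by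
    intro t ht z
    rw [← Real.log_lt_iff_lt_exp ht]
    constructor
    · intro h
      have h0 : Real.log t < 0 := h.trans_le (by have := sq_nonneg ‖z‖; linarith)
      refine ⟨(Real.log_neg_iff ht).1 h0, ?_⟩
      apply Real.lt_sqrt_of_sq_lt
      linarith
    · rintro ⟨h1, h2⟩
      have h0 : Real.log t < 0 := Real.log_neg ht h1
      rw [Real.lt_sqrt (norm_nonneg z)] at h2
      linarith
  set g : ℝ → ℝ≥0∞ := fun t => if t < 1 then
    ENNReal.ofReal ((Real.sqrt (-Real.log t)) ^ (Module.finrank ℝ (E n))) else 0 with hg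
  have hgm : Measurable g := by
    refine Measurable.ite (measurableSet_lt measurable_id measurable_const) ?_ measurable_const
    fun_prop
  refine ⟨∫⁻ t in Set.Ioi (0 : ℝ), g t, ?_⟩
  ext A hA
  have hpm : Measurable (fun z : E n => (((‖z‖⁻¹ : ℝ)) : ℂ) • z) := measurable_proj
  set P : Set (E n) := (fun z : E n => (((‖z‖⁻¹ : ℝ)) : ℂ) • z) ⁻¹' A with hPd
  have hPm : MeasurableSet P := hpm hA
  have hPs : ∀ (R : ℝ), 0 < R → ∀ z, R • z ∈ P ↔ z ∈ P := by
    intro R hR z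
    have := prj_smul R hR z
    unfold prj at this
    rw [hPd, Set.mem_preimage, Set.mem_preimage, this]
  have e1 : sig n A = ∫⁻ z in P, ENNReal.ofReal (Real.exp (-‖z‖ ^ 2)) ∂(vol n) := by
    rw [sig, Measure.map_apply hpm hA, gam, withDensity_apply _ hPm]
  have e2 : ∫⁻ z in P, ENNReal.ofReal (Real.exp (-‖z‖ ^ 2)) ∂(vol n) =
      ∫⁻ t in Set.Ioi (0 : ℝ), ((vol n).restrict P) {z | t < Real.exp (-‖z‖ ^ 2)} := by
    apply lintegral_eq_lintegral_meas_lt
    · exact Filter.Eventually.of_forall fun z => (Real.exp_pos _).le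
    · exact (by fun_prop : Measurable fun z : E n => Real.exp (-‖z‖ ^ 2)).aemeasurable
  have e3 : ∀ t ∈ Set.Ioi (0 : ℝ), ((vol n).restrict P) {z | t < Real.exp (-‖z‖ ^ 2)} =
      g t * nu n A := by
    intro t ht
    have hm : MeasurableSet {z : E n | t < Real.exp (-‖z‖ ^ 2)} :=
      measurableSet_lt measurable_const (by fun_prop)
    rw [Measure.restrict_apply hm, nu, Measure.map_apply hpm hA,
      Measure.restrict_apply hPm]
    simp only [hg]
    split_ifs with h1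
    · have hlog : 0 < -Real.log t := by
        have := Real.log_neg ht h1
        linarith
      rw [Set.inter_comm P, ← cone_scale hn P hPs _ (Real.sqrt_pos.2 hlog)]
      congr 1
      ext z
      simp only [Set.mem_inter_iff, Set.mem_setOf_eq, mem_ball_zero_iff]
      rw [hd t ht z]
      tauto
    · have : {z : E n | t < Real.exp (-‖z‖ ^ 2)} = ∅ := by
        ext z
        simp only [Set.mem_setOf_eq, Set.mem_empty_iff_false, iff_false]
        rw [hd t ht z]
        tauto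
      rw [this]
      simp
  rw [e1, e2, setLIntegral_congr_fun measurableSet_Ioi e3, lintegral_mul_const _ hgm]
  simp

lemma nu_univ : nu n Set.univ = (vol n) (Metric.ball 0 1) := by
  rw [nu, Measure.map_apply measurable_proj MeasurableSet.univ, Set.preimage_univ,
    Measure.restrict_apply MeasurableSet.univ, Set.univ_inter]

lemma nu_univ_pos : 0 < nu n Set.univ := by
  rw [nu_univ]
  exact Metric.measure_ball_pos _ _ one_pos

lemma nu_univ_lt : nu n Set.univ < ⊤ := by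
  rw [nu_univ]
  exact measure_ball_lt_top

instance nu_fin : IsFiniteMeasure (nu n) := ⟨nu_univ_lt⟩

theorem sig_eq' (hn : 1 ≤ n) : sig n = (sig n Set.univ / nu n Set.univ) • nu n := by
  obtain ⟨C, hC⟩ := sig_eq (n := n) hn
  have h1 : sig n Set.univ = C * nu n Set.univ := by
    conv_lhs => rw [hC]
    simp
  have h2 : sig n Set.univ / nu n Set.univ = C := by
    rw [h1, ENNReal.mul_div_cancel_right nu_univ_pos.ne' nu_univ_lt.ne]
  rw [h2]
  exact hC

theorem nu_ac (hn : 1 ≤ n) : nu n ≪ sig n := by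
  have h : nu n ≪ (sig n Set.univ / nu n Set.univ) • nu n :=
    (Measure.AbsolutelyContinuous.rfl).smul_right
      (ENNReal.div_pos sig_univ_pos.ne' nu_univ_lt.ne).ne'
  rw [← sig_eq' hn] at h
  exact h

theorem integral_nu (hn : 1 ≤ n) (g : E n → ℂ) :
    (nu n Set.univ).toReal⁻¹ • ∫ ξ, g ξ ∂(nu n) = (sig n Set.univ).toReal⁻¹ • ∫ ξ, g ξ ∂(sig n) := by
  have h : ∫ ξ, g ξ ∂(sig n) = (sig n Set.univ / nu n Set.univ).toReal • ∫ ξ, g ξ ∂(nu n) := by
    conv_lhs => rw [sig_eq' hn]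
    rw [integral_smul_measure]
  have h1 : (sig n Set.univ).toReal ≠ 0 :=
    (ENNReal.toReal_pos sig_univ_pos.ne' (measure_ne_top _ _)).ne'
  have h2 : (nu n Set.univ).toReal ≠ 0 :=
    (ENNReal.toReal_pos nu_univ_pos.ne' (measure_ne_top _ _)).ne'
  rw [h, ENNReal.toReal_div, smul_smul]
  congr 1
  field_simp

lemma toLp_emb : MeasurableEmbedding (WithLp.toLp 2 : (Fin n → ℂ) → E n) :=
  (PiLp.continuousLinearEquiv 2 ℂ (fun _ : Fin n => ℂ)).symm.toHomeomorph.measurableEmbedding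

lemma pre_ball : (WithLp.toLp 2 : (Fin n → ℂ) → E n) ⁻¹' (Metric.ball 0 1) =
    {z : Fin n → ℂ | ∑ i, ‖z i‖ ^ 2 < 1} := by
  ext z
  rw [Set.mem_preimage, mem_ball_zero_iff, EuclideanSpace.norm_eq, Set.mem_setOf_eq,
    Real.sqrt_lt' one_pos, one_pow]

lemma nu_univ_eq : nu n Set.univ = volume {z : Fin n → ℂ | ∑ i, ‖z i‖ ^ 2 < 1} := by
  rw [nu_univ, vol, toLp_emb.map_apply, pre_ball]

theorem int_ball (h : (Fin n → ℂ) → ℂ) (r : ℝ)
    (hm : AEStronglyMeasurable (fun ξ : E n => h (WithLp.ofLp ((r : ℂ) • ξ))) (nu n)) :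
    ∫ x in {z : Fin n → ℂ | ∑ i, ‖z i‖ ^ 2 < 1}, h ((r / Real.sqrt (∑ i, ‖x i‖ ^ 2)) • x) =
      ∫ ξ, h (WithLp.ofLp ((r : ℂ) • ξ)) ∂(nu n) := by
  unfold nu at hm ⊢
  rw [integral_map measurable_proj.aemeasurable hm, vol, toLp_emb.restrict_map,
    toLp_emb.integral_map, pre_ball]
  refine integral_congr_ae (Filter.Eventually.of_forall fun x => ?_)
  show h _ = h _
  congr 1
  rw [smul_smul, WithLp.ofLp_smul, WithLp.ofLp_toLp, EuclideanSpace.norm_eq]
  funext i
  simp only [Pi.smul_apply, Complex.real_smul, smul_eq_mul, div_eq_mul_inv, Complex.ofReal_mul]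
  

/-- the normalised spherical mean -/
theorem mean_eq (hn : 1 ≤ n) (h : (Fin n → ℂ) → ℂ) (r : ℝ)
    (hm : AEStronglyMeasurable (fun ξ : E n => h (WithLp.ofLp ((r : ℂ) • ξ))) (sig n)) :
    (volume {z : Fin n → ℂ | ∑ i, ‖z i‖ ^ 2 < 1}).toReal⁻¹ •
      ∫ x in {z : Fin n → ℂ | ∑ i, ‖z i‖ ^ 2 < 1}, h ((r / Real.sqrt (∑ i, ‖x i‖ ^ 2)) • x) =
      (sig n Set.univ).toReal⁻¹ • ∫ ξ, h (WithLp.ofLp ((r : ℂ) • ξ)) ∂(sig n) := by
  rw [int_ball h r (hm.mono_ac (nu_ac hn)), ← nu_univ_eq]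
  exact integral_nu hn _

lemma aesm (hn : 1 ≤ n) {h : (Fin n → ℂ) → ℂ}
    (hc : ContinuousOn h {z : Fin n → ℂ | ∑ i, ‖z i‖ ^ 2 < 1}) {r : ℝ} (hr0 : 0 ≤ r) (hr1 : r < 1) :
    AEStronglyMeasurable (fun ξ : E n => h (WithLp.ofLp ((r : ℂ) • ξ))) (sig n) := by
  set U : Set (Fin n → ℂ) := {z : Fin n → ℂ | ∑ i, ‖z i‖ ^ 2 < 1} with hU
  have hUo : IsOpen U := isOpen_lt (by fun_prop) continuous_const
  set ft : (Fin n → ℂ) → ℂ := U.indicator h with hftd
  have hft : Measurable ft := by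
    apply measurable_of_restrict_of_restrict_compl hUo.measurableSet
    · have : U.domRestrict ft = U.domRestrict h := by
        ext z
        simp only [Set.domRestrict_apply, hftd]
        rw [Set.indicator_of_mem z.2]
      rw [this]
      exact (continuousOn_iff_continuous_domRestrict.1 hc).measurable
    · have : Uᶜ.domRestrict ft = fun _ => 0 := by
        ext z
        simp only [Set.domRestrict_apply, hftd]
        rw [Set.indicator_of_notMem z.2]
      rw [this]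
      exact measurable_const
  have hofLp : Measurable (fun ξ : E n => WithLp.ofLp ξ) :=
    (PiLp.continuous_ofLp 2 (fun _ : Fin n => ℂ)).measurable
  have h1 : Measurable (fun ξ : E n => ft (WithLp.ofLp ((r : ℂ) • ξ))) :=
    hft.comp (hofLp.comp (measurable_const_smul (r : ℂ)))
  refine AEMeasurable.aestronglyMeasurable ⟨_, h1, ?_⟩
  filter_upwards [sig_ae_norm hn] with ξ hξ
  simp only [hftd]
  rw [Set.indicator_of_mem]
  show ∑ i, ‖(WithLp.ofLp ((r : ℂ) • ξ)) i‖ ^ 2 < 1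
  have h2 : ∑ i, ‖(WithLp.ofLp ((r : ℂ) • ξ)) i‖ ^ 2 = ‖(r : ℂ) • ξ‖ ^ 2 := by
    rw [EuclideanSpace.norm_sq_eq]
  rw [h2, norm_smul, Complex.norm_real, Real.norm_of_nonneg hr0, hξ]
  nlinarith

end Pool.Agent.H541R3.HpB
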