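import Mathlib
import Pool.Agent.HpBall2.FinB
import Pool.Agent.H541R3.HpB.Sph
import Pool.Agent.H541R3.HpB.MainC2

set_option autoImplicit false

open MeasureTheory Complex Filter Topology
open scoped ENNReal NNReal

namespace Pool.Agent.H541R3.HpB

open Pool.Agent.HpBall Pool.Agent.HpBall2

variable {n : ℕ}

/-- the unit ball -/
def BB (n : ℕ) : Set (Fin n → ℂ) := {z | ∑ i, ‖z i‖ ^ 2 < 1}

/-- total mass of the surface measure -/
noncomputable def MM (n : ℕ) : ℝ := (sig n Set.univ).toReal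

lemma MM_pos : 0 < MM n := ENNReal.toReal_pos sig_univ_pos.ne' (measure_ne_top _ _)

/-- the normalised spherical mean, written as an integral over the ball -/
noncomputable def II (h : (Fin n → ℂ) → ℂ) (r : ℝ) : ℂ :=
  (volume (BB n)).toReal⁻¹ • ∫ x in BB n, h ((r / Real.sqrt (∑ i, ‖x i‖ ^ 2)) • x)

lemma II_eq (hn : 1 ≤ n) {h : (Fin n → ℂ) → ℂ} (hc : ContinuousOn h (BB n)) {r : ℝ}
    (hr0 : 0 ≤ r) (hr1 : r < 1) :
    II h r = (MM n)⁻¹ • ∫ ξ, h (WithLp.ofLp ((r : ℂ) • ξ)) ∂(sig n) :=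
  mean_eq hn h r (aesm hn hc hr0 hr1)

lemma II_re (hn : 1 ≤ n) {v : (Fin n → ℂ) → ℝ} (hc : ContinuousOn v (BB n)) (hv : ∀ z, 0 ≤ v z)
    {r : ℝ} (hr0 : 0 ≤ r) (hr1 : r < 1) :
    (II (fun z => ((v z : ℝ) : ℂ)) r).re =
      (MM n)⁻¹ * (∫⁻ ξ, ENNReal.ofReal (v (WithLp.ofLp ((r : ℂ) • ξ))) ∂(sig n)).toReal := by
  have hc' : ContinuousOn (fun z => ((v z : ℝ) : ℂ)) (BB n) :=
    Complex.continuous_ofReal.comp_continuousOn hc
  have hm := aesm hn hc' hr0 hr1
  rw [II_eq hn hc' hr0 hr1, integral_complex_ofReal, Complex.real_smul, ← Complex.ofReal_mul,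
    Complex.ofReal_re, integral_eq_lintegral_of_nonneg_ae (Filter.Eventually.of_forall fun ξ => hv _)]
  have := Complex.continuous_re.comp_aestronglyMeasurable hm
  simpa using this

/-- the mean of order one -/
lemma II_one (hn : 1 ≤ n) {u : (Fin n → ℂ) → ℂ} (hu : DifferentiableOn ℂ u (BB n)) {r : ℝ}
    (hr0 : 0 ≤ r) (hr1 : r < 1) :
    (II (fun z => ((‖u z‖ : ℝ) : ℂ)) r).re = (MM n)⁻¹ * B32_I u r := by
  rw [II_re hn hu.continuousOn.norm (fun z => norm_nonneg _) hr0 hr1]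
  have h := B32_T1 hn hu hr0 hr1
  simp only [Real.rpow_one] at h
  rw [← h, ENNReal.toReal_ofReal (B32_I_nonneg _ _)]

/-- the norm -/
noncomputable def N1 (f : (Fin n → ℂ) → ℂ) : ℝ :=
  sSup ((fun r : ℝ => (II (fun z => ((‖f z‖ : ℝ) : ℂ)) r).re) '' Set.Ioo 0 1)

lemma img_eq (hn : 1 ≤ n) {u : (Fin n → ℂ) → ℂ} (hu : DifferentiableOn ℂ u (BB n)) :
    ((fun r : ℝ => (II (fun z => ((‖u z‖ : ℝ) : ℂ)) r).re) '' Set.Ioo 0 1) =
      ((fun r : ℝ => (MM n)⁻¹ * B32_I u r) '' Set.Ioo 0 1) :=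
  Set.image_congr fun r hr => II_one hn hu hr.1.le hr.2

lemma ne_img : ((Set.Ioo 0 1 : Set ℝ)).Nonempty := ⟨1 / 2, by norm_num, by norm_num⟩

lemma NF_of_bdd (hn : 1 ≤ n) {u : (Fin n → ℂ) → ℂ} (hu : DifferentiableOn ℂ u (BB n))
    (hb : BddAbove ((fun r : ℝ => (II (fun z => ((‖u z‖ : ℝ) : ℂ)) r).re) '' Set.Ioo 0 1)) :
    NF n 1 (fun z : E n => u (WithLp.ofLp z)) ≤ ENNReal.ofReal (MM n * N1 u) := by
  apply B32_NF_le hn hu
  intro r h0 h1
  have h := le_csSup hb ⟨r, ⟨h0, h1⟩, rfl⟩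
  simp only at h
  rw [II_one hn hu h0.le h1] at h
  have hM := MM_pos (n := n)
  calc B32_I u r = MM n * ((MM n)⁻¹ * B32_I u r) := by field_simp
    _ ≤ MM n * N1 u := mul_le_mul_of_nonneg_left h hM.le

lemma bdd_of_NF (hn : 1 ≤ n) {u : (Fin n → ℂ) → ℂ} (hu : DifferentiableOn ℂ u (BB n))
    (hNF : NF n 1 (fun z : E n => u (WithLp.ofLp z)) ≠ ⊤) :
    ∀ x ∈ ((fun r : ℝ => (II (fun z => ((‖u z‖ : ℝ) : ℂ)) r).re) '' Set.Ioo 0 1),
      x ≤ (MM n)⁻¹ * (NF n 1 (fun z : E n => u (WithLp.ofLp z))).toReal := by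
  rw [img_eq hn hu]
  rintro _ ⟨r, hr, rfl⟩
  exact mul_le_mul_of_nonneg_left (B32_I_le hn hu hNF hr.1 hr.2) (inv_nonneg.2 MM_pos.le)

lemma N1_le (hn : 1 ≤ n) {u : (Fin n → ℂ) → ℂ} (hu : DifferentiableOn ℂ u (BB n))
    (hNF : NF n 1 (fun z : E n => u (WithLp.ofLp z)) ≠ ⊤) :
    N1 u ≤ (MM n)⁻¹ * (NF n 1 (fun z : E n => u (WithLp.ofLp z))).toReal :=
  csSup_le (ne_img.image _) (bdd_of_NF hn hu hNF)

lemma N1_nonneg (hn : 1 ≤ n) {u : (Fin n → ℂ) → ℂ} (hu : DifferentiableOn ℂ u (BB n)) :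
    0 ≤ N1 u := by
  unfold N1
  rw [img_eq hn hu]
  apply Real.sSup_nonneg
  rintro _ ⟨r, _, rfl⟩
  exact mul_nonneg (inv_nonneg.2 MM_pos.le) (B32_I_nonneg _ _)

lemma NF_le_N1 (hn : 1 ≤ n) {u : (Fin n → ℂ) → ℂ} (hu : DifferentiableOn ℂ u (BB n))
    (hNF : NF n 1 (fun z : E n => u (WithLp.ofLp z)) ≠ ⊤) :
    NF n 1 (fun z : E n => u (WithLp.ofLp z)) ≤ ENNReal.ofReal (MM n * N1 u) :=
  NF_of_bdd hn hu ⟨_, bdd_of_NF hn hu hNF⟩

/-- convergence in the two norms is the same -/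
lemma tendsto_iff {ι : Type*} (hn : 1 ≤ n) (l : Filter ι) (u : ι → (Fin n → ℂ) → ℂ)
    (hu : ∀ i, DifferentiableOn ℂ (u i) (BB n))
    (hNF : ∀ i, NF n 1 (fun z : E n => u i (WithLp.ofLp z)) ≠ ⊤) :
    Tendsto (fun i => N1 (u i)) l (𝓝 0) ↔
      Tendsto (fun i => NF n 1 (fun z : E n => u i (WithLp.ofLp z))) l (𝓝 0) := by
  constructor
  · intro h
    have h1 : Tendsto (fun i => ENNReal.ofReal (MM n * N1 (u i))) l (𝓝 0) := by
      have h2 := ENNReal.tendsto_ofReal (h.const_mul (MM n))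
      simpa using h2
    exact tendsto_of_tendsto_of_tendsto_of_le_of_le tendsto_const_nhds h1 (fun _ => zero_le)
      (fun i => NF_le_N1 hn (hu i) (hNF i))
  · intro h
    have h1 : Tendsto (fun i => (MM n)⁻¹ *
        (NF n 1 (fun z : E n => u i (WithLp.ofLp z))).toReal) l (𝓝 0) := by
      have h2 := ((ENNReal.tendsto_toReal ENNReal.zero_ne_top).comp h).const_mul (MM n)⁻¹
      simpa using h2
    exact tendsto_of_tendsto_of_tendsto_of_le_of_le tendsto_const_nhds h1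
      (fun i => N1_nonneg hn (hu i)) (fun i => N1_le hn (hu i) (hNF i))

/-- Main theorem. -/
theorem main (hn : 1 ≤ n) : ∃ b : ℕ → (Fin n → ℂ) → ℂ,
    (∀ k, DifferentiableOn ℂ (b k) (BB n) ∧
      BddAbove ((fun r : ℝ => (II (fun z => ((‖b k z‖ ^ (2 : ℝ) : ℝ) : ℂ)) r).re) '' Set.Ioo 0 1)) ∧
    (∀ j k : ℕ, Tendsto (fun r : ℝ => II (fun z => b j z * star (b k z)) r) (𝓝[<] (1 : ℝ))
        (𝓝 (if j = k then (1 : ℂ) else 0))) ∧
    (∀ f : (Fin n → ℂ) → ℂ, DifferentiableOn ℂ f (BB n) →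
      BddAbove ((fun r : ℝ => (II (fun z => ((‖f z‖ : ℝ) : ℂ)) r).re) '' Set.Ioo 0 1) →
      (∃! a : ℕ → ℂ, Tendsto (fun N : ℕ => N1 (fun z => (∑ k ∈ Finset.range N, a k * b k z) - f z))
        atTop (𝓝 0)) ∧
      ∀ a : ℕ → ℂ,
        Tendsto (fun N : ℕ => N1 (fun z => (∑ k ∈ Finset.range N, a k * b k z) - f z)) atTop (𝓝 0) →
        Tendsto (fun s : Finset ℕ => N1 (fun z => (∑ k ∈ s, a k * b k z) - f z)) atTop (𝓝 0)) := by
  obtain ⟨e, he_d, he_2, he_o, ⟨D, hD, hDc⟩, he_b⟩ := main_basis2 n hn 1 one_pos le_rfl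
  have hM := MM_pos (n := n)
  set s : ℝ := Real.sqrt (MM n) with hs
  have hs0 : 0 < s := Real.sqrt_pos.2 hM
  have hss : s * s = MM n := Real.mul_self_sqrt hM.le
  have hsC : (s : ℂ) ≠ 0 := by exact_mod_cast hs0.ne'
  set b : ℕ → (Fin n → ℂ) → ℂ := fun k z => (s : ℂ) * e k (WithLp.toLp 2 z) with hb
  have hbd : ∀ k, DifferentiableOn ℂ (b k) (BB n) := fun k => by
    refine (transfer_diff n (b k)).2 ?_
    exact (he_d k).const_mul _
  have hNFe : ∀ k, NF n 1 (e k) ≠ ⊤ := fun k => B32_NF_e hn (he_d k) (he_2 k)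
  refine ⟨b, fun k => ⟨hbd k, ?_⟩, ?_, ?_⟩
  · -- square means
    refine ⟨1, ?_⟩
    rintro _ ⟨r, hr, rfl⟩
    show (II (fun z => ((‖b k z‖ ^ (2 : ℝ) : ℝ) : ℂ)) r).re ≤ 1
    have hcb : ContinuousOn (fun z => ‖b k z‖ ^ (2 : ℝ)) (BB n) :=
      (hbd k).continuousOn.norm.rpow_const fun x _ => Or.inr (by norm_num)
    rw [II_re hn (v := fun z => ‖b k z‖ ^ (2 : ℝ)) hcb (fun z => by positivity) hr.1.le hr.2]
    have h1 : ∫⁻ ξ, ENNReal.ofReal (‖b k (WithLp.ofLp ((r : ℂ) • ξ))‖ ^ (2 : ℝ)) ∂(sig n) ≤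
        ENNReal.ofReal (MM n) := by
      have h2 : ∀ ξ : E n, ENNReal.ofReal (‖b k (WithLp.ofLp ((r : ℂ) • ξ))‖ ^ (2 : ℝ)) =
          ENNReal.ofReal (MM n) * ENNReal.ofReal (‖e k ((r : ℂ) • ξ)‖ ^ (2 : ℝ)) := by
        intro ξ
        rw [← ENNReal.ofReal_mul hM.le]
        congr 1
        simp only [hb]
        rw [norm_mul, Complex.norm_real, Real.norm_of_nonneg hs0.le,
          Real.mul_rpow hs0.le (norm_nonneg _), Real.rpow_two s, sq, hss]
      simp_rw [h2]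
      rw [lintegral_const_mul' _ _ ENNReal.ofReal_ne_top]
      calc ENNReal.ofReal (MM n) * _ ≤ ENNReal.ofReal (MM n) * 1 := by
            gcongr
            exact he_2 k r hr.1.le hr.2
        _ = _ := mul_one _
    have h3 := ENNReal.toReal_le_of_le_ofReal hM.le h1
    calc (MM n)⁻¹ * _ ≤ (MM n)⁻¹ * MM n := by
          gcongr
      _ = 1 := inv_mul_cancel₀ hM.ne'
  · -- orthonormality
    intro j k
    refine (he_o j k).congr' ?_
    have h2 : Set.Ioo (0 : ℝ) 1 ∈ 𝓝[<] (1 : ℝ) := Ioo_mem_nhdsLT one_pos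
    filter_upwards [h2] with r hr
    have hc : ContinuousOn (fun z => b j z * star (b k z)) (BB n) :=
      (hbd j).continuousOn.mul (continuous_star.comp_continuousOn (hbd k).continuousOn)
    rw [II_eq hn hc hr.1.le hr.2]
    have h3 : ∀ ξ : E n, b j (WithLp.ofLp ((r : ℂ) • ξ)) * star (b k (WithLp.ofLp ((r : ℂ) • ξ))) =
        ((MM n : ℝ) : ℂ) * (e j ((r : ℂ) • ξ) * (starRingEnd ℂ) (e k ((r : ℂ) • ξ))) := by
      intro ξ
      simp only [hb, star_mul', RCLike.star_def, Complex.conj_ofReal, WithLp.toLp_ofLp]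
      rw [← hss]
      push_cast
      ring
    simp_rw [h3]
    rw [integral_const_mul, Complex.real_smul, ← mul_assoc, ← Complex.ofReal_mul,
      inv_mul_cancel₀ hM.ne', Complex.ofReal_one, one_mul]
  · intro f hf hfb
    have hf' := (transfer_diff n f).1 hf
    have hNFf : NF n 1 (fun z : E n => f (WithLp.ofLp z)) ≠ ⊤ :=
      ne_top_of_le_ne_top ENNReal.ofReal_ne_top (NF_of_bdd hn hf hfb)
    obtain ⟨a0, ha0, _⟩ := he_b _ hf' hNFf
    -- the differences
    have hud : ∀ (A : ℕ → ℂ) (G : Finset ℕ),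
        DifferentiableOn ℂ (fun z => (∑ k ∈ G, A k * b k z) - f z) (BB n) := fun A G =>
      (DifferentiableOn.fun_sum fun k _ => (hbd k).const_mul (A k)).sub hf
    have hNeq : ∀ (A : ℕ → ℂ) (G : Finset ℕ),
        NF n 1 (fun z : E n => (∑ k ∈ G, A k * b k (WithLp.ofLp z)) - f (WithLp.ofLp z)) =
        NF n 1 (fun z : E n => f (WithLp.ofLp z) - ∑ k ∈ G, (A k * s) * e k z) := by
      intro A G
      rw [NF_sub_comm]
      congr 1
      funext z
      congr 1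
      refine Finset.sum_congr rfl fun k _ => ?_
      simp only [hb, WithLp.toLp_ofLp]
      ring
    have huN : ∀ (A : ℕ → ℂ) (G : Finset ℕ), NF n 1 (fun z : E n =>
        (fun z => (∑ k ∈ G, A k * b k z) - f z) (WithLp.ofLp z)) ≠ ⊤ := by
      intro A G
      show NF n 1 (fun z : E n => (∑ k ∈ G, A k * b k (WithLp.ofLp z)) - f (WithLp.ofLp z)) ≠ ⊤
      rw [hNeq]
      exact B32_NF_sub hn hf' he_d hNFf hNFe _ G
    -- uniqueness
    have huniq : ∀ A A' : ℕ → ℂ,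
        Tendsto (fun N : ℕ => N1 (fun z => (∑ k ∈ Finset.range N, A k * b k z) - f z))
          atTop (𝓝 0) →
        Tendsto (fun N : ℕ => N1 (fun z => (∑ k ∈ Finset.range N, A' k * b k z) - f z))
          atTop (𝓝 0) → A = A' := by
      intro A A' hA hA'
      rw [tendsto_iff hn _ _ (fun N => hud A (Finset.range N)) (fun N => huN A (Finset.range N))]
        at hA
      rw [tendsto_iff hn _ _ (fun N => hud A' (Finset.range N)) (fun N => huN A' (Finset.range N))]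
        at hA'
      funext k
      obtain ⟨c, hc, hcb⟩ := hDc k
      have h1 : Tendsto (fun N : ℕ => D * (
          NF n 1 (fun z : E n => (∑ k ∈ Finset.range N, A k * b k (WithLp.ofLp z)) -
            f (WithLp.ofLp z)) +
          NF n 1 (fun z : E n => (∑ k ∈ Finset.range N, A' k * b k (WithLp.ofLp z)) -
            f (WithLp.ofLp z)))) atTop (𝓝 0) := by
        have h2 := ENNReal.Tendsto.const_mul (hA.add hA') (Or.inr hD) (a := D)
        simpa using h2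
      have h3 : ∀ N : ℕ, k < N → ENNReal.ofReal (‖(A k - A' k) * s‖ ^ (1 : ℝ)) * c ≤ D * (
          NF n 1 (fun z : E n => (∑ k ∈ Finset.range N, A k * b k (WithLp.ofLp z)) -
            f (WithLp.ofLp z)) +
          NF n 1 (fun z : E n => (∑ k ∈ Finset.range N, A' k * b k (WithLp.ofLp z)) -
            f (WithLp.ofLp z))) := by
        intro N hN
        refine (hcb (fun k => (A k - A' k) * s) (Finset.range N) (Finset.mem_range.2 hN)).trans ?_
        gcongr D * ?_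
        have h4 : (fun z : E n => ∑ j ∈ Finset.range N, (A j - A' j) * s * e j z) = fun z : E n =>
            ((∑ k ∈ Finset.range N, A k * b k (WithLp.ofLp z)) - f (WithLp.ofLp z)) +
            (f (WithLp.ofLp z) - (∑ k ∈ Finset.range N, A' k * b k (WithLp.ofLp z))) := by
          funext z
          rw [sub_add_sub_cancel, ← Finset.sum_sub_distrib]
          refine Finset.sum_congr rfl fun k _ => ?_
          simp only [hb, WithLp.toLp_ofLp]
          ring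
        rw [h4]
        refine (NF_add hn one_pos le_rfl ((transfer_diff n _).1 (hud A (Finset.range N)))).trans ?_
        rw [NF_sub_comm (fun z : E n => f (WithLp.ofLp z))]
      have h5 : ENNReal.ofReal (‖(A k - A' k) * s‖ ^ (1 : ℝ)) * c ≤ 0 :=
        ge_of_tendsto h1 ((eventually_gt_atTop k).mono h3)
      rw [nonpos_iff_eq_zero, mul_eq_zero] at h5
      rcases h5 with h5 | h5
      · rw [ENNReal.ofReal_eq_zero, Real.rpow_one] at h5
        have h6 : (A k - A' k) * (s : ℂ) = 0 := norm_le_zero_iff.1 h5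
        rcases mul_eq_zero.1 h6 with h7 | h7
        · exact sub_eq_zero.1 h7
        · exact absurd h7 hsC
      · exact absurd h5 hc
    -- the unconditional expansion
    set A0 : ℕ → ℂ := fun k => a0 k / s with hA0
    have hun : Tendsto (fun t : Finset ℕ => N1 (fun z => (∑ k ∈ t, A0 k * b k z) - f z)) atTop
        (𝓝 0) := by
      rw [tendsto_iff hn _ _ (fun G => hud A0 G) (fun G => huN A0 G)]
      rw [ENNReal.tendsto_atTop_zero]
      intro ε hε
      obtain ⟨F, hF⟩ := ha0 ε hε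
      refine ⟨F, fun G hG => ?_⟩
      refine le_trans (le_of_eq ?_) (hF G hG).le
      show NF n 1 (fun z : E n => (∑ k ∈ G, A0 k * b k (WithLp.ofLp z)) - f (WithLp.ofLp z)) = _
      rw [hNeq]
      congr 1
      funext z
      congr 1
      refine Finset.sum_congr rfl fun k _ => ?_
      simp only [hA0]
      rw [div_mul_cancel₀ _ hsC]
    have hcon := hun.comp tendsto_finset_range
    refine ⟨⟨A0, hcon, fun A hA => huniq A A0 hA hcon⟩, fun A hA => ?_⟩
    rw [huniq A A0 hA hcon]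
    exact hun

end Pool.Agent.H541R3.HpB
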